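import Pool.Agent.H402Z.CROrbit

/-!
A smooth CR manifold (`ℝ^5` with a CR structure of CR dimension one) and a point whose orbit under
local CR diffeomorphisms is not the image of any separable, locally connected space under a
continuous map; in particular it is not an immersed (second countable) submanifold.
-/

set_option autoImplicit false

namespace Pool.Agent.Results.MP_430a41_an.AOrbitNotSubmanifold

open Pool.Agent.Results.MP_430a41_an.HolSpanFails

universe u

theorem result : ∃ (n r : ℕ) (S : CRStructure n r) (p : Fin n → ℝ),
    ∀ (N : Type u) [TopologicalSpace N] [LocallyConnectedSpace N]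
      [TopologicalSpace.SeparableSpace N] (ι : N → (Fin n → ℝ)),
      Continuous ι → Set.range ι ≠ S.orbit p :=
  ⟨5, 1, Pool.Agent.H402Z.CROrbit.main⟩

end Pool.Agent.Results.MP_430a41_an.AOrbitNotSubmanifold
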